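import Pool.Agent.Helper35.PQF.St

open Filter Topology Matrix Set MeasureTheory
open scoped ENNReal ComplexOrder

namespace Pool.Agent.Helper4.PM
open Pool.Agent.Helper35.PM

lemma posdef_entries (Q : Mat) (hQ : Q.PosDef) :
    Q 0 0 = (((Q 0 0).re : ℝ) : ℂ) ∧ Q 1 1 = (((Q 1 1).re : ℝ) : ℂ) ∧
      Q 1 0 = (starRingEnd ℂ) (Q 0 1) ∧ 0 < (Q 0 0).re ∧ 0 < (Q 1 1).re ∧
      0 < (Q 0 0).re * (Q 1 1).re - ‖Q 0 1‖ ^ 2 := by
  have h0 := hQ.diag_pos (i := 0)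
  have h1 := hQ.diag_pos (i := 1)
  have hd := hQ.det_pos
  have hH := hQ.isHermitian
  have e10 : Q 1 0 = (starRingEnd ℂ) (Q 0 1) := by
    have := hH.apply 1 0
    simpa using this.symm
  rw [Complex.lt_def] at h0 h1 hd
  have r0 : Q 0 0 = (((Q 0 0).re : ℝ) : ℂ) := by
    apply Complex.ext
    · simp
    · simpa using h0.2.symm
  have r1 : Q 1 1 = (((Q 1 1).re : ℝ) : ℂ) := by
    apply Complex.ext
    · simp
    · simpa using h1.2.symm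
  refine ⟨r0, r1, e10, by simpa using h0.1, by simpa using h1.1, ?_⟩
  have hdet : Q.det = (((Q 0 0).re * (Q 1 1).re - ‖Q 0 1‖ ^ 2 : ℝ) : ℂ) := by
    rw [Matrix.det_fin_two, e10, Complex.mul_conj, r0, r1, Complex.normSq_eq_norm_sq]
    push_cast
    simp
  have := hd.1
  rw [hdet, Complex.ofReal_re, Complex.zero_re] at this
  exact this

lemma disp_diag (μ : ℂ) (hμ : 1 ≤ ‖μ‖) (Q : Mat) (hQ : Q.PosDef)
    (h5 : 5 * ‖Q 0 1‖ ^ 2 ≤ (Q 0 0).re * (Q 1 1).re) :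
    disp !![μ, 0; 0, μ⁻¹] Q ≤ 3 * ‖μ‖ ^ 2 := by
  obtain ⟨r0, r1, e10, hx, hy, hΔ⟩ := posdef_entries Q hQ
  set x := (Q 0 0).re with hxd
  set y := (Q 1 1).re with hyd
  set b := Q 0 1 with hb
  have hμ0 : μ ≠ 0 := by
    intro h; rw [h] at hμ; simp at hμ; linarith
  have hdet : Q.det = ((x * y - ‖b‖ ^ 2 : ℝ) : ℂ) := by
    rw [Matrix.det_fin_two, e10, Complex.mul_conj, r0, r1, Complex.normSq_eq_norm_sq]
    push_cast
    simp [hb]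
  have hQe : Q = !![(x : ℂ), b; (starRingEnd ℂ) b, (y : ℂ)] := by
    ext i j
    fin_cases i <;> fin_cases j <;> simp [← r0, ← r1, ← e10, ← hb]
  have hinv : Q⁻¹ = ((x * y - ‖b‖ ^ 2 : ℝ) : ℂ)⁻¹ • !![(y : ℂ), -b; -(starRingEnd ℂ) b, (x : ℂ)] := by
    rw [Matrix.inv_def, hdet, Ring.inverse_eq_inv', hQe, Matrix.adjugate_fin_two_of]
  have hA : (!![μ, 0; 0, μ⁻¹] : Mat)ᴴ = !![(starRingEnd ℂ) μ, 0; 0, (starRingEnd ℂ) μ⁻¹] := by
    ext i j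
    fin_cases i <;> fin_cases j <;> simp
  have htr : (Q⁻¹ * !![μ, 0; 0, μ⁻¹] * Q * (!![μ, 0; 0, μ⁻¹] : Mat)ᴴ).trace =
      (((x * y - ‖b‖ ^ 2)⁻¹ : ℝ) : ℂ) *
        (((x * y * (‖μ‖ ^ 2 + (‖μ‖ ^ 2)⁻¹) : ℝ) : ℂ)
          - ((‖b‖ ^ 2 : ℝ) : ℂ) * (μ⁻¹ * (starRingEnd ℂ) μ + μ * (starRingEnd ℂ) μ⁻¹)) := by
    rw [hinv, hA, hQe, Matrix.trace_fin_two]
    simp only [Matrix.smul_mul, Matrix.smul_apply, smul_eq_mul, Matrix.mul_apply,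
      Fin.sum_univ_two]
    simp only [Matrix.of_apply, Matrix.cons_val', Matrix.cons_val_zero, Matrix.cons_val_one,
      Matrix.cons_val_fin_one, mul_zero, add_zero, zero_add]
    have e1 : ((‖μ‖ ^ 2 : ℝ) : ℂ) = μ * (starRingEnd ℂ) μ := by
      rw [Complex.mul_conj, Complex.normSq_eq_norm_sq]
    have e2 : (((‖μ‖ ^ 2)⁻¹ : ℝ) : ℂ) = μ⁻¹ * (starRingEnd ℂ) μ⁻¹ := by
      rw [Complex.ofReal_inv, e1, map_inv₀, mul_inv]
    have e3 : ((‖b‖ ^ 2 : ℝ) : ℂ) = b * (starRingEnd ℂ) b := by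
      rw [Complex.mul_conj, Complex.normSq_eq_norm_sq]
    have e4 : ((x * y * (‖μ‖ ^ 2 + (‖μ‖ ^ 2)⁻¹) : ℝ) : ℂ) =
        (x : ℂ) * y * (μ * (starRingEnd ℂ) μ + μ⁻¹ * (starRingEnd ℂ) μ⁻¹) := by
      rw [← e1, ← e2]; push_cast; ring
    rw [e4, e3, Complex.ofReal_inv]
    ring
  unfold disp
  rw [htr, Complex.re_ofReal_mul, Complex.sub_re, Complex.ofReal_re, Complex.re_ofReal_mul]
  have hn : -2 ≤ (μ⁻¹ * (starRingEnd ℂ) μ + μ * (starRingEnd ℂ) μ⁻¹).re := by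
    have h1 : ‖μ⁻¹ * (starRingEnd ℂ) μ‖ = 1 := by
      rw [norm_mul, norm_inv, Complex.norm_conj]
      exact inv_mul_cancel₀ (by simpa using hμ0)
    have h2 : ‖μ * (starRingEnd ℂ) μ⁻¹‖ = 1 := by
      rw [norm_mul, Complex.norm_conj, norm_inv]
      exact mul_inv_cancel₀ (by simpa using hμ0)
    have h3 := Complex.abs_re_le_norm (μ⁻¹ * (starRingEnd ℂ) μ)
    have h4 := Complex.abs_re_le_norm (μ * (starRingEnd ℂ) μ⁻¹)
    rw [h1] at h3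
    rw [h2] at h4
    rw [Complex.add_re]
    have := (abs_le.1 h3).1
    have := (abs_le.1 h4).1
    linarith
  rw [inv_mul_le_iff₀ hΔ]
  have hr : 1 ≤ ‖μ‖ ^ 2 := one_le_pow₀ hμ
  have hri : (‖μ‖ ^ 2)⁻¹ ≤ ‖μ‖ ^ 2 := (inv_le_one_of_one_le₀ hr).trans hr
  have hb0 : 0 ≤ ‖b‖ ^ 2 := by positivity
  have hxy : 0 < x * y := mul_pos hx hy
  have s1 : x * y * (‖μ‖ ^ 2 + (‖μ‖ ^ 2)⁻¹) ≤ x * y * (2 * ‖μ‖ ^ 2) :=
    mul_le_mul_of_nonneg_left (by linarith) hxy.le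
  have s2 : -(‖b‖ ^ 2 * (μ⁻¹ * (starRingEnd ℂ) μ + μ * (starRingEnd ℂ) μ⁻¹).re) ≤ 2 * ‖b‖ ^ 2 := by
    nlinarith
  have s3 : 5 * ‖b‖ ^ 2 * ‖μ‖ ^ 2 ≤ x * y * ‖μ‖ ^ 2 :=
    mul_le_mul_of_nonneg_right h5 (by positivity)
  nlinarith

/-- An eigenvector of a `2 × 2` matrix. -/
lemma exists_eig (A : SL) (μ : ℂ) (hμ : μ ^ 2 - (A : Mat).trace * μ + 1 = 0) :
    ∃ v : Fin 2 → ℂ, v ≠ 0 ∧ (A : Mat) 0 0 * v 0 + (A : Mat) 0 1 * v 1 = μ * v 0 ∧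
      (A : Mat) 1 0 * v 0 + (A : Mat) 1 1 * v 1 = μ * v 1 := by
  have hd : (A : Mat).det = 1 := A.2
  rw [Matrix.det_fin_two] at hd
  rw [Matrix.trace_fin_two] at hμ
  have hdet : ((A : Mat) - μ • (1 : Mat)).det = 0 := by
    rw [Matrix.det_fin_two]
    simp only [Matrix.sub_apply, Matrix.smul_apply, smul_eq_mul]
    simp
    linear_combination hμ + hd
  obtain ⟨v, hv, hv0⟩ := Matrix.exists_mulVec_eq_zero_iff.2 hdet
  refine ⟨v, hv, ?_, ?_⟩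
  · have := congrFun hv0 0
    simp only [Matrix.mulVec, dotProduct, Fin.sum_univ_two, Matrix.sub_apply, Matrix.smul_apply,
      smul_eq_mul, Pi.zero_apply] at this
    simp at this
    linear_combination this
  · have := congrFun hv0 1
    simp only [Matrix.mulVec, dotProduct, Fin.sum_univ_two, Matrix.sub_apply, Matrix.smul_apply,
      smul_eq_mul, Pi.zero_apply] at this
    simp at this
    linear_combination this

/-- The diagonal matrix `diag(μ, μ⁻¹)` in `SL(2,ℂ)`. -/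
noncomputable def dg (μ : ℂ) (h : μ ≠ 0) : SL :=
  ⟨!![μ, 0; 0, μ⁻¹], by rw [Matrix.det_fin_two_of]; field_simp; ring⟩

lemma dg_coe (μ : ℂ) (h : μ ≠ 0) : ((dg μ h : SL) : Mat) = !![μ, 0; 0, μ⁻¹] := rfl

lemma dg_pow (μ : ℂ) (h : μ ≠ 0) (n : ℕ) :
    (((dg μ h) ^ n : SL) : Mat) = !![μ ^ n, 0; 0, (μ ^ n)⁻¹] := by
  induction n with
  | zero =>
    ext i j
    fin_cases i <;> fin_cases j <;> simp
  | succ n ih =>
    rw [pow_succ, Matrix.SpecialLinearGroup.coe_mul, ih, dg_coe]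
    ext i j
    fin_cases i <;> fin_cases j <;> simp [Matrix.mul_apply, Fin.sum_univ_two, pow_succ, mul_comm]

lemma dg_pow_inv (μ : ℂ) (h : μ ≠ 0) (n : ℕ) :
    ((((dg μ h) ^ n)⁻¹ : SL) : Mat) = !![(μ ^ n)⁻¹, 0; 0, μ ^ n] := by
  rw [Matrix.SpecialLinearGroup.coe_inv, dg_pow, Matrix.adjugate_fin_two_of]
  simp

/-- Diagonalisation. -/
lemma exists_conj (A : SL) (μ : ℂ) (hμ : μ ^ 2 - (A : Mat).trace * μ + 1 = 0) (h0 : μ ≠ 0)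
    (hne : μ ≠ μ⁻¹) : ∃ B : SL, A = B * dg μ h0 * B⁻¹ := by
  obtain ⟨v, hv, hv0, hv1⟩ := exists_eig A μ hμ
  have hμ' : (μ⁻¹) ^ 2 - (A : Mat).trace * μ⁻¹ + 1 = 0 := by
    field_simp
    linear_combination hμ
  obtain ⟨w, hw, hw0, hw1⟩ := exists_eig A μ⁻¹ hμ'
  have hsub : μ - μ⁻¹ ≠ 0 := sub_ne_zero.2 hne
  have hs : v 0 * w 1 - w 0 * v 1 ≠ 0 := by
    intro hs
    have e1 : v 0 * w 1 = 0 := by
      have : (μ - μ⁻¹) * (v 0 * w 1) = 0 := by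
        linear_combination (-w 1) * hv0 + v 1 * hw0 + ((A : Mat) 0 0 - μ⁻¹) * hs
      exact (mul_eq_zero.1 this).resolve_left hsub
    have e2 : w 0 * v 1 = 0 := by linear_combination e1 - hs
    have e3 : v 0 * w 0 = 0 := by
      have : (μ - μ⁻¹) * (v 0 * w 0) = 0 := by
        linear_combination (-w 0) * hv0 + v 0 * hw0 - ((A : Mat) 0 1) * hs
      exact (mul_eq_zero.1 this).resolve_left hsub
    have e4 : v 1 * w 1 = 0 := by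
      have : (μ - μ⁻¹) * (v 1 * w 1) = 0 := by
        linear_combination (-w 1) * hv1 + v 1 * hw1 + ((A : Mat) 1 0) * hs
      exact (mul_eq_zero.1 this).resolve_left hsub
    have hw' : w = 0 := by
      by_cases hv00 : v 0 = 0
      · have hv11 : v 1 ≠ 0 := by
          intro h
          apply hv
          ext i
          fin_cases i <;> simp [hv00, h]
        ext i
        fin_cases i
        · simpa [hv11] using e2
        · simpa [hv11] using e4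
      · ext i
        fin_cases i
        · simpa [hv00] using e3
        · simpa [hv00] using e1
    exact hw hw'
  set s := v 0 * w 1 - w 0 * v 1 with hsd
  let B : SL := ⟨!![v 0 / s, w 0; v 1 / s, w 1], by
    rw [Matrix.det_fin_two_of]
    field_simp
    rw [hsd]⟩
  refine ⟨B, ?_⟩
  rw [eq_mul_inv_iff_mul_eq]
  apply Subtype.ext
  rw [Matrix.SpecialLinearGroup.coe_mul, Matrix.SpecialLinearGroup.coe_mul, dg_coe]
  have hB : (B : Mat) = !![v 0 / s, w 0; v 1 / s, w 1] := rfl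
  rw [hB]
  ext i j
  fin_cases i <;> fin_cases j
  · simp [Matrix.mul_apply, Fin.sum_univ_two]
    field_simp
    linear_combination hv0
  · simp [Matrix.mul_apply, Fin.sum_univ_two]
    linear_combination hw0
  · simp [Matrix.mul_apply, Fin.sum_univ_two]
    field_simp
    linear_combination hv1
  · simp [Matrix.mul_apply, Fin.sum_univ_two]
    linear_combination hw1

lemma diag_entries (x y : ℂ) (P : Mat) :
    ((!![x, 0; 0, y] : Mat) * P * (!![x, 0; 0, y] : Mat)ᴴ) 0 0 = x * P 0 0 * (starRingEnd ℂ) x ∧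
    ((!![x, 0; 0, y] : Mat) * P * (!![x, 0; 0, y] : Mat)ᴴ) 0 1 = x * P 0 1 * (starRingEnd ℂ) y ∧
    ((!![x, 0; 0, y] : Mat) * P * (!![x, 0; 0, y] : Mat)ᴴ) 1 1 = y * P 1 1 * (starRingEnd ℂ) y := by
  refine ⟨?_, ?_, ?_⟩
  · simp only [Matrix.mul_apply, Fin.sum_univ_two, Matrix.conjTranspose_apply]
    simp
  · simp only [Matrix.mul_apply, Fin.sum_univ_two, Matrix.conjTranspose_apply]
    simp
  · simp only [Matrix.mul_apply, Fin.sum_univ_two, Matrix.conjTranspose_apply]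
    simp

theorem dp3 (hs2 : St_HS2) (dp1 : St_DP1) : St_DP3 := by
  intro A hA P hP
  obtain ⟨μ, hμ, hμ1, hμt⟩ := hs2.1 A
  have hlog : 0 < Real.log ‖μ‖ := by rw [hμt] at hA; linarith
  have hμ0 : μ ≠ 0 := by
    intro h; rw [h] at hlog; simp at hlog
  have hμgt : 1 < ‖μ‖ := by
    rcases hμ1.lt_or_eq with h | h
    · exact h
    · rw [← h] at hlog; simp at hlog
  have hne : μ ≠ μ⁻¹ := by
    intro h
    have h2 : ‖μ‖ = ‖μ‖⁻¹ := by rw [← norm_inv, ← h]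
    have h3 : ‖μ‖⁻¹ < 1 := inv_lt_one_of_one_lt₀ hμgt
    linarith
  have hexp : Real.exp (tl A) = ‖μ‖ ^ 2 := by
    rw [hμt, two_mul, Real.exp_add, Real.exp_log (by linarith)]; ring
  obtain ⟨B, hB⟩ := exists_conj A μ hμ hμ0 hne
  set D := dg μ hμ0 with hD
  set P' : Mat := ((B⁻¹ : SL) : Mat) * P * ((B⁻¹ : SL) : Mat)ᴴ with hP'
  have hP'pd : P'.PosDef := dp1.2.2.1 B⁻¹ P hP
  obtain ⟨n, hn⟩ := pow_unbounded_of_one_lt 20 hμgt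
  refine ⟨n, ?_⟩
  rw [hexp]
  have key : ∀ g : SL, ((B * g * B⁻¹ : SL) : Mat) * P * ((B * g * B⁻¹ : SL) : Mat)ᴴ =
      (B : Mat) * ((g : Mat) * P' * (g : Mat)ᴴ) * (B : Mat)ᴴ := by
    intro g
    rw [hP']
    simp only [Matrix.SpecialLinearGroup.coe_mul, Matrix.conjTranspose_mul, Matrix.mul_assoc]
  have hAn : A ^ n = B * D ^ n * B⁻¹ := by rw [hB, conj_pow]
  have hAni : (A ^ n)⁻¹ = B * (D ^ n)⁻¹ * B⁻¹ := by rw [hAn]; group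
  rw [hAni, key, hAn, key, ← Matrix.add_mul, ← Matrix.mul_add]
  set Q : Mat := (((D ^ n : SL) : Mat) * P' * ((D ^ n : SL) : Mat)ᴴ +
    (((D ^ n)⁻¹ : SL) : Mat) * P' * (((D ^ n)⁻¹ : SL) : Mat)ᴴ) with hQ
  have hQpd : Q.PosDef := (dp1.2.2.1 (D ^ n) P' hP'pd).add (dp1.2.2.1 ((D ^ n)⁻¹) P' hP'pd)
  have hdisp := dp1.1 D B Q hQpd
  rw [← hB] at hdisp
  rw [hdisp, hD, dg_coe]
  apply disp_diag μ hμ1 Q hQpd
  obtain ⟨r0, r1, e10, ha, hc, hΔ⟩ := posdef_entries P' hP'pd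
  set a := (P' 0 0).re
  set c := (P' 1 1).re
  have hp0 : μ ^ n ≠ 0 := pow_ne_zero n hμ0
  set p := μ ^ n with hp
  have hpn : 20 < ‖p‖ := by rw [hp, norm_pow]; exact hn
  have hD1 : (((D ^ n : SL) : Mat)) = !![p, 0; 0, p⁻¹] := dg_pow μ hμ0 n
  have hD2 : ((((D ^ n)⁻¹ : SL) : Mat)) = !![p⁻¹, 0; 0, p] := dg_pow_inv μ hμ0 n
  have hQ00 : Q 0 0 = (((‖p‖ ^ 2 + (‖p‖ ^ 2)⁻¹) * a : ℝ) : ℂ) := by
    rw [hQ, hD1, hD2]
    have e1 : ((‖p‖ ^ 2 : ℝ) : ℂ) = p * (starRingEnd ℂ) p := by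
      rw [Complex.mul_conj, Complex.normSq_eq_norm_sq]
    have e2 : (((‖p‖ ^ 2)⁻¹ : ℝ) : ℂ) = p⁻¹ * (starRingEnd ℂ) p⁻¹ := by
      rw [Complex.ofReal_inv, e1, map_inv₀, mul_inv]
    rw [Complex.ofReal_mul, Complex.ofReal_add, e1, e2]
    rw [Matrix.add_apply, (diag_entries p p⁻¹ P').1, (diag_entries p⁻¹ p P').1, r0]
    ring
  have hQ11 : Q 1 1 = (((‖p‖ ^ 2 + (‖p‖ ^ 2)⁻¹) * c : ℝ) : ℂ) := by
    rw [hQ, hD1, hD2]
    have e1 : ((‖p‖ ^ 2 : ℝ) : ℂ) = p * (starRingEnd ℂ) p := by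
      rw [Complex.mul_conj, Complex.normSq_eq_norm_sq]
    have e2 : (((‖p‖ ^ 2)⁻¹ : ℝ) : ℂ) = p⁻¹ * (starRingEnd ℂ) p⁻¹ := by
      rw [Complex.ofReal_inv, e1, map_inv₀, mul_inv]
    rw [Complex.ofReal_mul, Complex.ofReal_add, e1, e2]
    rw [Matrix.add_apply, (diag_entries p p⁻¹ P').2.2, (diag_entries p⁻¹ p P').2.2, r1]
    ring
  have hQ01 : Q 0 1 = P' 0 1 * (p * (starRingEnd ℂ) p⁻¹ + p⁻¹ * (starRingEnd ℂ) p) := by
    rw [hQ, hD1, hD2]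
    rw [Matrix.add_apply, (diag_entries p p⁻¹ P').2.1, (diag_entries p⁻¹ p P').2.1]
    ring
  have hnb : ‖Q 0 1‖ ≤ 2 * ‖P' 0 1‖ := by
    rw [hQ01, norm_mul]
    have h1 : ‖p * (starRingEnd ℂ) p⁻¹‖ = 1 := by
      rw [norm_mul, Complex.norm_conj, norm_inv]
      exact mul_inv_cancel₀ (by simpa using hp0)
    have h2 : ‖p⁻¹ * (starRingEnd ℂ) p‖ = 1 := by
      rw [norm_mul, norm_inv, Complex.norm_conj]
      exact inv_mul_cancel₀ (by simpa using hp0)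
    have h3 := norm_add_le (p * (starRingEnd ℂ) p⁻¹) (p⁻¹ * (starRingEnd ℂ) p)
    rw [h1, h2] at h3
    have := mul_le_mul_of_nonneg_left h3 (norm_nonneg (P' 0 1))
    linarith
  rw [hQ00, hQ11, Complex.ofReal_re, Complex.ofReal_re]
  have hsq : ‖Q 0 1‖ ^ 2 ≤ 4 * ‖P' 0 1‖ ^ 2 := by
    have := pow_le_pow_left₀ (norm_nonneg (Q 0 1)) hnb 2
    linarith [this, mul_pow 2 ‖P' 0 1‖ 2]
  have hp2 : 400 ≤ ‖p‖ ^ 2 := by nlinarith
  have hi : 0 ≤ (‖p‖ ^ 2)⁻¹ := by positivity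
  have hac : 0 < a * c := mul_pos ha hc
  have h20 : 20 ≤ (‖p‖ ^ 2 + (‖p‖ ^ 2)⁻¹) * (‖p‖ ^ 2 + (‖p‖ ^ 2)⁻¹) := by nlinarith
  calc 5 * ‖Q 0 1‖ ^ 2 ≤ 20 * ‖P' 0 1‖ ^ 2 := by linarith
    _ ≤ 20 * (a * c) := by linarith
    _ ≤ ((‖p‖ ^ 2 + (‖p‖ ^ 2)⁻¹) * (‖p‖ ^ 2 + (‖p‖ ^ 2)⁻¹)) * (a * c) :=
        mul_le_mul_of_nonneg_right h20 hac.le
    _ = _ := by ring

end Pool.Agent.Helper4.PM
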